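import Mathlib

/-!
# Weak Sidon sets: the Erdos-Turan window bound
-/

set_option autoImplicit false

namespace Pool.Agent.MP_fd6c89

/-- A finite set of naturals all of whose sums of two distinct members are different. -/
def WeakSidon (A : Finset ℕ) : Prop :=
  ∀ a ∈ A, ∀ b ∈ A, ∀ c ∈ A, ∀ d ∈ A, a ≠ b → c ≠ d → a + b = c + d →
    (a = c ∧ b = d) ∨ (a = d ∧ b = c)

/-- pairs `a < b` of members -/
def pairs (A : Finset ℕ) : Finset (ℕ × ℕ) := (A ×ˢ A).filter (fun q => q.1 < q.2)

theorem card_excess (A : Finset ℕ) (h : WeakSidon A) :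
    ((pairs A).filter (fun q => 2 * q.2 - q.1 ∈ A)).card ≤ A.card := by
  apply Finset.card_le_card_of_injOn (fun q => q.2)
  · intro q hq
    simp only [pairs, Finset.coe_filter, Finset.mem_filter, Finset.mem_product,
      Set.mem_ofPred_eq] at hq
    exact hq.1.1.2
  · intro q hq r hr hqr
    simp only [pairs, Finset.coe_filter, Finset.mem_filter, Finset.mem_product,
      Set.mem_ofPred_eq] at hq hr hqr
    obtain ⟨⟨⟨h1, h2⟩, h3⟩, h4⟩ := hq
    obtain ⟨⟨⟨k1, k2⟩, k3⟩, k4⟩ := hr
    have := h q.1 h1 (2 * q.2 - q.1) h4 r.1 k1 (2 * r.2 - r.1) k4 (by omega) (by omega) (by omega)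
    rcases this with ⟨e1, _⟩ | ⟨e1, _⟩
    · exact Prod.ext e1 hqr
    · omega

theorem inj_rest (A : Finset ℕ) (h : WeakSidon A) :
    Set.InjOn (fun q : ℕ × ℕ => q.2 - q.1)
      ((pairs A).filter (fun q => ¬ (2 * q.2 - q.1 ∈ A)) : Finset (ℕ × ℕ)) := by
  intro q hq r hr hqr
  simp only [pairs, Finset.coe_filter, Finset.mem_filter, Finset.mem_product,
    Set.mem_ofPred_eq] at hq hr hqr
  obtain ⟨⟨⟨h1, h2⟩, h3⟩, h4⟩ := hq
  obtain ⟨⟨⟨k1, k2⟩, k3⟩, k4⟩ := hr
  by_contra hne
  have hq1 : q.2 ≠ r.1 := by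
    intro e
    apply h4
    have : 2 * q.2 - q.1 = r.2 := by omega
    rw [this]; exact k2
  have hr1 : r.2 ≠ q.1 := by
    intro e
    apply k4
    have : 2 * r.2 - r.1 = q.2 := by omega
    rw [this]; exact h2
  have := h q.1 h1 r.2 k2 r.1 k1 q.2 h2 (fun e => hr1 e.symm) (fun e => hq1 e.symm) (by omega)
  rcases this with ⟨e1, e2⟩ | ⟨e1, _⟩
  · exact hne (Prod.ext e1 e2.symm)
  · omega

theorem sum_pairs (A : Finset ℕ) (h : WeakSidon A) (u : ℕ) :
    ∑ q ∈ pairs A, (u - (q.2 - q.1)) ≤ A.card * u + ∑ d ∈ Finset.Ico 1 u, (u - d) := by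
  classical
  rw [← Finset.sum_filter_add_sum_filter_not (pairs A) (fun q => 2 * q.2 - q.1 ∈ A)]
  apply Nat.add_le_add
  · calc ∑ q ∈ (pairs A).filter (fun q => 2 * q.2 - q.1 ∈ A), (u - (q.2 - q.1))
        ≤ ∑ q ∈ (pairs A).filter (fun q => 2 * q.2 - q.1 ∈ A), u :=
          Finset.sum_le_sum (fun _ _ => Nat.sub_le _ _)
      _ = ((pairs A).filter (fun q => 2 * q.2 - q.1 ∈ A)).card * u := by simp
      _ ≤ A.card * u := Nat.mul_le_mul_right _ (card_excess A h)
  · have e := Finset.sum_image (f := fun d => u - d) (inj_rest A h)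
    rw [← e]
    apply Finset.sum_le_sum_of_ne_zero
    intro d hd hne
    rw [Finset.mem_image] at hd
    obtain ⟨q, hq, rfl⟩ := hd
    simp only [pairs, Finset.mem_filter, Finset.mem_product] at hq
    rw [Finset.mem_Ico]
    omega

theorem sum_mul (A : Finset ℕ) (N u : ℕ) (hN : ∀ a ∈ A, a < N) :
    ∑ x ∈ Finset.range (N + u), ∑ a ∈ A, (if a ≤ x ∧ x < a + u then 1 else 0) = A.card * u := by
  rw [Finset.sum_comm, Finset.card_eq_sum_ones, Finset.sum_mul]
  apply Finset.sum_congr rfl
  intro a ha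
  rw [← Finset.card_filter]
  have : (Finset.range (N + u)).filter (fun x => a ≤ x ∧ x < a + u) = Finset.Ico a (a + u) := by
    ext x
    have := hN a ha
    simp only [Finset.mem_filter, Finset.mem_range, Finset.mem_Ico]
    omega
  rw [this]
  simp

theorem sum_sq (A : Finset ℕ) (N u : ℕ) :
    ∑ x ∈ Finset.range (N + u), (∑ a ∈ A, (if a ≤ x ∧ x < a + u then 1 else 0)) ^ 2 ≤
      A.card * u + 2 * ∑ q ∈ pairs A, (u - (q.2 - q.1)) := by
  classical
  have h1 : ∀ x, (∑ a ∈ A, (if a ≤ x ∧ x < a + u then 1 else 0)) ^ 2 =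
      ∑ q ∈ A ×ˢ A, (if (q.1 ≤ x ∧ x < q.1 + u) ∧ (q.2 ≤ x ∧ x < q.2 + u) then 1 else 0) := by
    intro x
    rw [sq, Finset.sum_mul_sum, Finset.sum_product]
    apply Finset.sum_congr rfl
    intro a _
    apply Finset.sum_congr rfl
    intro b _
    by_cases h1 : a ≤ x ∧ x < a + u <;> by_cases h2 : b ≤ x ∧ x < b + u <;> simp [h1, h2]
  simp only [h1]
  rw [Finset.sum_comm]
  have h2 : ∀ q ∈ A ×ˢ A, ∑ x ∈ Finset.range (N + u),
      (if (q.1 ≤ x ∧ x < q.1 + u) ∧ (q.2 ≤ x ∧ x < q.2 + u) then 1 else 0) ≤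
      u - (q.2 - q.1) - (q.1 - q.2) := by
    intro q _
    rw [← Finset.card_filter]
    have : (Finset.range (N + u)).filter
        (fun x => (q.1 ≤ x ∧ x < q.1 + u) ∧ (q.2 ≤ x ∧ x < q.2 + u)) ⊆
        Finset.Ico (max q.1 q.2) (min q.1 q.2 + u) := by
      intro x
      simp only [Finset.mem_filter, Finset.mem_range, Finset.mem_Ico]
      omega
    refine (Finset.card_le_card this).trans ?_
    rw [Nat.card_Ico]
    omega
  refine (Finset.sum_le_sum h2).trans ?_
  have h3 : A ×ˢ A = (A ×ˢ A).filter (fun q => q.1 = q.2) ∪ (pairs A ∪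
      (A ×ˢ A).filter (fun q => q.2 < q.1)) := by
    ext q
    simp only [pairs, Finset.mem_union, Finset.mem_filter]
    constructor
    · intro h
      rcases lt_trichotomy q.1 q.2 with h' | h' | h'
      · exact Or.inr (Or.inl ⟨h, h'⟩)
      · exact Or.inl ⟨h, h'⟩
      · exact Or.inr (Or.inr ⟨h, h'⟩)
    · rintro (h | h | h) <;> exact h.1
  rw [h3, Finset.sum_union, Finset.sum_union]
  · have e1 : ∑ q ∈ (A ×ˢ A).filter (fun q => q.1 = q.2), (u - (q.2 - q.1) - (q.1 - q.2)) =
        A.card * u := by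
      have : ∑ q ∈ (A ×ˢ A).filter (fun q => q.1 = q.2), (u - (q.2 - q.1) - (q.1 - q.2)) =
          ∑ a ∈ A, u := by
        apply Finset.sum_nbij' (fun q => q.1) (fun a => (a, a))
        · intro q hq
          simp only [Finset.mem_filter, Finset.mem_product] at hq
          exact hq.1.1
        · intro a ha
          simp only [Finset.mem_filter, Finset.mem_product]
          exact ⟨⟨ha, ha⟩, trivial⟩
        · intro q hq
          simp only [Finset.mem_filter, Finset.mem_product] at hq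
          exact Prod.ext rfl hq.2
        · intro a _; rfl
        · intro q hq
          simp only [Finset.mem_filter, Finset.mem_product] at hq
          rw [hq.2]
          omega
      rw [this]
      simp
    have e2 : ∑ q ∈ pairs A, (u - (q.2 - q.1) - (q.1 - q.2)) =
        ∑ q ∈ pairs A, (u - (q.2 - q.1)) := by
      apply Finset.sum_congr rfl
      intro q hq
      simp only [pairs, Finset.mem_filter] at hq
      omega
    have e3 : ∑ q ∈ (A ×ˢ A).filter (fun q => q.2 < q.1), (u - (q.2 - q.1) - (q.1 - q.2)) =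
        ∑ q ∈ pairs A, (u - (q.2 - q.1)) := by
      apply Finset.sum_nbij' (fun q => (q.2, q.1)) (fun q => (q.2, q.1))
      · intro q hq
        simp only [pairs, Finset.mem_filter, Finset.mem_product] at hq ⊢
        tauto
      · intro q hq
        simp only [pairs, Finset.mem_filter, Finset.mem_product] at hq ⊢
        tauto
      · intro q _; rfl
      · intro q _; rfl
      · intro q hq
        simp only [Finset.mem_filter] at hq
        dsimp only
        omega
    rw [e1, e2, e3]
    omega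
  · rw [Finset.disjoint_left]
    intro q hq hq'
    simp only [pairs, Finset.mem_filter] at hq hq'
    omega
  · rw [Finset.disjoint_left]
    intro q hq hq'
    simp only [pairs, Finset.mem_filter, Finset.mem_union] at hq hq'
    rcases hq' with h | h <;> omega

/-- The Erdős–Turán window argument for sets with distinct sums of two distinct members. -/
theorem weakSidon_bound (A : Finset ℕ) (h : WeakSidon A) (N u : ℕ) (hN : ∀ a ∈ A, a < N) :
    (A.card * u) ^ 2 ≤
      (N + u) * (A.card * u + 2 * (A.card * u + ∑ d ∈ Finset.Ico 1 u, (u - d))) := by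
  have h1 := sum_mul A N u hN
  have h2 := sq_sum_le_card_mul_sum_sq (s := Finset.range (N + u))
    (f := fun x => ∑ a ∈ A, (if a ≤ x ∧ x < a + u then 1 else 0))
  rw [h1, Finset.card_range] at h2
  refine h2.trans (Nat.mul_le_mul_left _ ?_)
  refine (sum_sq A N u).trans ?_
  have := sum_pairs A h u
  omega

end Pool.Agent.MP_fd6c89
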